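import Pool.Agent.Q76.FH.Lag

/-!
# Cubic fourfolds in `C_8` and `C_18`: Addington's and Hassett's criteria are equivalent
-/

set_option autoImplicit false

namespace Pool.Agent.Q76.FH

open Pool.Agent.Y95.Q Pool.Agent.Y95.Q.H4

variable {X : CubicFourfold} {H : H4 X}

/-- the equation which gives Addington's criterion -/
theorem fanoHilb_of_eq (hH : H.IsCohomology) {l T : Fin 23 → ℤ} (hl : H.IsHodge l)
    (hT : H.IsHodge T) {m a b c : ℤ} (hm : H.ip H.h l = m) (hll : H.ip l l = m ^ 2)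
    (ha : H.ip H.h T = a) (hb : H.ip l T = m * a - b) (hc : H.ip T T = a ^ 2 - 2 * c)
    (i y z : ℤ)
    (h : 3 * i ^ 2 + 3 * i + 1 + (2 * i + 1) * (y * m + z * a) + y * z * b + z ^ 2 * c = 0) :
    FanoHilb H := by
  have hu : H.IsHodge (y • l + z • T) := H.isHodge_add (H.isHodge_smul _ hl) (H.isHodge_smul _ hT)
  refine fanoHilb_of_disc hH hu (n := 3 * i + y * m + z * a + 1) ?_
  simp only [disc, ip_add_left, ip_add_right, ip_smul_left, ip_smul_right, hll, hc,
    hH.comm T l, hb, hm, ha]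
  linear_combination (-6) * h

/-- the number `c` -/
theorem exists_c (hH : H.IsCohomology) (T : Fin 23 → ℤ) :
    ∃ c : ℤ, H.ip T T = H.ip H.h T ^ 2 - 2 * c := by
  have h1 := hH.char T
  rw [hH.comm T H.h] at h1
  obtain ⟨r, hr⟩ := h1
  obtain ⟨s, hs⟩ := Int.even_mul_pred_self (H.ip H.h T)
  exact ⟨s - r, by linear_combination hr - hs⟩

/-- the discriminant -/
theorem disc_eq {T : Fin 23 → ℤ} {a c : ℤ} (ha : H.ip H.h T = a)
    (hc : H.ip T T = a ^ 2 - 2 * c) : H.disc T = 2 * (a ^ 2 - 3 * c) := by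
  rw [disc, ha, hc]; ring

/-- the case of `C_8` -/
theorem two (hH : H.IsCohomology) {l T : Fin 23 → ℤ} (hl : H.IsHodge l)
    (hT : H.IsHodge T) (hm : H.ip H.h l = 2) (hll : H.ip l l = 4) (h4 : ¬ 4 ∣ H.disc T) :
    FanoHilb H := by
  obtain ⟨c, hc⟩ := exists_c hH T
  obtain ⟨a, ha⟩ : ∃ a, a = H.ip H.h T := ⟨_, rfl⟩
  rw [← ha] at hc
  rw [disc_eq ha.symm hc] at h4
  obtain ⟨b, hb⟩ : ∃ b, b = 2 * a - H.ip l T := ⟨_, rfl⟩
  have hb' : H.ip l T = 2 * a - b := by rw [hb]; ring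
  rcases Int.even_or_odd b with ⟨b', hb2⟩ | hb2
  · have hodd : (a + c) % 2 = 1 := by
      rcases Int.emod_two_eq_zero_or_one (a + c) with h | h
      · exfalso
        apply h4
        have h5 : (a ^ 2) % 2 = a % 2 := by
          rcases Int.emod_two_eq_zero_or_one a with h6 | h6
          · rw [pow_two, Int.mul_emod, h6]; norm_num
          · rw [pow_two, Int.mul_emod, h6]; norm_num
        omega
      · exact h
    rcases Int.even_or_odd b' with ⟨e, he⟩ | ⟨e, he⟩
    · -- `k = 1 - b'`, `z = 1`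
      -- `j + k a + c` is even
      have hev : (3 * e ^ 2 - 3 * e + 1 + (1 - 2 * e) * a + c) % 2 = 0 := by
        have h1 : (3 * e ^ 2 - 3 * e) % 2 = 0 := by
          have : 3 * e ^ 2 - 3 * e = 3 * (e * (e - 1)) := by ring
          rw [this]
          have h2 := (Int.even_mul_pred_self e)
          exact Int.even_iff.1 (h2.mul_left 3)
        have h2 : 3 * e ^ 2 - 3 * e + 1 + (1 - 2 * e) * a + c =
            (3 * e ^ 2 - 3 * e) + (a + c) + 1 + 2 * (- e * a) := by ring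
        rw [h2]
        omega
      obtain ⟨w, hw⟩ : (2 : ℤ) ∣ 3 * e ^ 2 - 3 * e + 1 + (1 - 2 * e) * a + c :=
        Int.dvd_of_emod_eq_zero hev
      refine fanoHilb_of_eq hH hl hT hm (by rw [hll]; norm_num) ha.symm hb' hc (-e) (-w) 1 ?_
      rw [hb2, he]
      linear_combination hw
    · -- `k = ± 2 - b'`, `z = 1`
      -- `i = - e` or `i = - e - 1 - 1`
      have key : ∀ i : ℤ, 3 * i ^ 2 + 3 * i + 1 + (2 * i + 1) * a + c =
          3 * (i * (i + 1)) + 1 + 2 * (i * a) + (a + c) := by intro i; ring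
      -- for `i = -e` : `k = 1 - 2 e = 2 - b'`; for `i = - e - 2` : `k = -3 - 2e = - 2 - b'`
      have h1 : (3 * (-e) ^ 2 + 3 * (-e) + 1 + (2 * (-e) + 1) * a + c) % 2 = 0 := by
        rw [key]
        have h2 := Int.even_iff.1 (Int.even_mul_succ_self (-e))
        omega
      have h2 : (3 * (-e - 2) ^ 2 + 3 * (-e - 2) + 1 + (2 * (-e - 2) + 1) * a + c) =
          (3 * (-e) ^ 2 + 3 * (-e) + 1 + (2 * (-e) + 1) * a + c) + 4 * (3 * e - a) + 6 := by ring
      rcases (show (3 * (-e) ^ 2 + 3 * (-e) + 1 + (2 * (-e) + 1) * a + c) % 4 = 0 ∨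
        (3 * (-e - 2) ^ 2 + 3 * (-e - 2) + 1 + (2 * (-e - 2) + 1) * a + c) % 4 = 0 by omega)
        with h3 | h3
      · obtain ⟨w, hw⟩ := Int.dvd_of_emod_eq_zero h3
        refine fanoHilb_of_eq hH hl hT hm (by rw [hll]; norm_num) ha.symm hb' hc (-e) (-w) 1 ?_
        rw [hb2, he]
        linear_combination hw
      · obtain ⟨w, hw⟩ := Int.dvd_of_emod_eq_zero h3
        refine fanoHilb_of_eq hH hl hT hm (by rw [hll]; norm_num) ha.symm hb' hc (-e - 2) w 1 ?_
        rw [hb2, he]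
        linear_combination hw
  · refine fanoHilb_of_isotropic hH hl hT (by rw [hm, hll]; norm_num) ?_
    rw [hm, hb']
    obtain ⟨e, he⟩ := hb2
    exact ⟨e + 1 - a, 1, by rw [he]; ring⟩

/-- the case of `C_18` -/
theorem three (hH : H.IsCohomology) {l T : Fin 23 → ℤ} (hl : H.IsHodge l)
    (hT : H.IsHodge T) (hm : H.ip H.h l = 3) (hll : H.ip l l = 9)
    (h0 : H.disc T % 18 ≠ 0) (h12 : H.disc T % 18 ≠ 12) : FanoHilb H := by
  obtain ⟨c, hc⟩ := exists_c hH T
  obtain ⟨a, ha⟩ : ∃ a, a = H.ip H.h T := ⟨_, rfl⟩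
  rw [← ha] at hc
  rw [disc_eq ha.symm hc] at h0 h12
  obtain ⟨b, hb⟩ : ∃ b, b = 3 * a - H.ip l T := ⟨_, rfl⟩
  have hb' : H.ip l T = 3 * a - b := by rw [hb]; ring
  have cop : ∀ x : ℤ, x % 3 ≠ 0 → IsCoprime (3 : ℤ) x := fun x hx =>
    (Int.prime_three.coprime_iff_not_dvd).2 fun hd => hx (Int.emod_eq_zero_of_dvd hd)
  by_cases hb3 : b % 3 = 0
  · by_cases ha3 : a % 3 = 0
    · obtain ⟨b', rfl⟩ := Int.dvd_of_emod_eq_zero hb3
      obtain ⟨a', rfl⟩ := Int.dvd_of_emod_eq_zero ha3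
      have h2 : (2 * ((3 * a') ^ 2 - 3 * c)) = 18 * a' ^ 2 - 6 * c := by ring
      rw [h2] at h0 h12
      have hc3 : c % 3 = 2 := by omega
      obtain ⟨c', hc'⟩ : ∃ c', c = 3 * c' + 2 := ⟨c / 3, by omega⟩
      -- `z = 2`, `k = 1 - 2 b'`, `i = - b'`
      refine fanoHilb_of_eq hH hl hT hm (by rw [hll]; norm_num) ha.symm hb' hc (-b')
        (-(b' ^ 2 - b' + 2 * (1 - 2 * b') * a' + 4 * c' + 3)) 2 ?_
      rw [hc']
      ring
    · -- the other isotropic class
      have hl2 : H.IsHodge ((2 : ℤ) • H.h - l) :=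
        H.isHodge_sub (H.isHodge_smul _ hH.h_hodge) hl
      have hlh : H.ip l H.h = 3 := (hH.comm _ _).trans hm
      have hm2 : H.ip H.h ((2 : ℤ) • H.h - l) = 3 := by
        rw [ip_sub_right, ip_smul_right, hH.h_self, hm]; norm_num
      refine fanoHilb_of_isotropic hH (l := (2 : ℤ) • H.h - l) (T := T) hl2 hT ?_ ?_
      · rw [hm2]
        simp only [ip_sub_left, ip_sub_right, ip_smul_left, ip_smul_right, hH.h_self, hm, hlh, hll]
        norm_num
      · rw [hm2, ip_sub_left, ip_smul_left, hb', ← ha]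
        exact cop _ (by omega)
  · refine fanoHilb_of_isotropic hH hl hT (by rw [hm, hll]; norm_num) ?_
    rw [hm, hb']
    exact cop _ (by omega)

/-- an admissible number is not `0` or `12` modulo `18` -/
theorem admissible_mod {d : ℤ} (hd : Admissible d) (he : d % 2 = 0) :
    d % 18 ≠ 0 ∧ d % 18 ≠ 12 := by
  obtain ⟨h6, h4, h9, hp⟩ := hd
  refine ⟨fun h => h9 (by omega), fun h => ?_⟩
  -- `d = 6 u` with `u = 2 mod 3`
  obtain ⟨u, hu⟩ : ∃ u : ℕ, d = 6 * u := ⟨(d / 6).toNat, by omega⟩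
  have hu3 : u % 3 = 2 := by omega
  have hu2 : u % 2 = 1 := by omega
  -- all prime factors of `u` are `1 mod 3`
  have key : ∀ n : ℕ, 0 < n → (∀ p : ℕ, p.Prime → p ∣ n → p % 3 = 1) → n % 3 = 1 := by
    intro n
    induction n using Nat.recOnMul with
    | zero => intro h; omega
    | one => intro _ _; rfl
    | prime p hp' => intro _ h; exact h p hp' dvd_rfl
    | mul x y hx hy =>
      intro hpos h
      have hx0 : 0 < x := by
        rcases Nat.eq_zero_or_pos x with h0 | h0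
        · subst h0; simp at hpos
        · exact h0
      have hy0 : 0 < y := by
        rcases Nat.eq_zero_or_pos y with h0 | h0
        · subst h0; simp at hpos
        · exact h0
      rw [Nat.mul_mod, hx hx0 (fun p h1 h2 => h p h1 (h2.mul_right _)),
        hy hy0 (fun p h1 h2 => h p h1 (h2.mul_left _))]
  have h1 := key u (by omega) (fun p h1 h2 => by
    have h3 : (p : ℤ) ∣ d := by
      rw [hu]
      exact (Int.natCast_dvd_natCast.2 h2).mul_left 6
    have hp2 : p ≠ 2 := by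
      rintro rfl
      omega
    have h4 := hp p h1 hp2 h3
    have h5 : p % 3 ≠ 0 := by
      intro h6
      have h7 : 3 ∣ p := Nat.dvd_of_mod_eq_zero h6
      have h8 : 3 ∣ u := h7.trans h2
      omega
    omega)
  omega

/-- the discriminants are even -/
theorem disc_even (hH : H.IsCohomology) (T : Fin 23 → ℤ) : H.disc T % 2 = 0 := by
  obtain ⟨c, hc⟩ := exists_c hH T
  rw [disc_eq rfl hc]
  omega

/-- the fourfold lies in Hassett's divisor `C_d` -/
def InC {X : CubicFourfold} (H : H4 X) (d : ℤ) : Prop :=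
  ∃ v, H.IsHodge v ∧ H.Saturated v ∧ H.disc v = d

/-- the isotropic class for `C_8` -/
theorem exists_two (hH : H.IsCohomology) (h : InC H 8) :
    ∃ l, H.IsHodge l ∧ H.ip H.h l = 2 ∧ H.ip l l = 4 := by
  obtain ⟨v, hv, -, hd⟩ := h
  obtain ⟨a, ha⟩ : ∃ a, a = H.ip H.h v := ⟨_, rfl⟩
  obtain ⟨s, hs⟩ : ∃ s, s = H.ip v v := ⟨_, rfl⟩
  have hva : H.ip v H.h = a := (hH.comm _ _).trans ha.symm
  rw [disc, ← ha, ← hs] at hd
  have h3 : a % 3 = 1 ∨ a % 3 = 2 := by
    have h1 : a % 3 = 0 ∨ a % 3 = 1 ∨ a % 3 = 2 := by omega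
    rcases h1 with h1 | h1
    · exfalso
      obtain ⟨x, rfl⟩ := Int.dvd_of_emod_eq_zero h1
      have : 3 * (s - 3 * x ^ 2) = 8 := by linear_combination hd
      omega
    · exact h1
  rcases h3 with h3 | h3
  · obtain ⟨x, hx⟩ : ∃ x, a = 3 * x - 2 := ⟨(a + 2) / 3, by omega⟩
    refine ⟨x • H.h - v, H.isHodge_sub (H.isHodge_smul _ hH.h_hodge) hv, ?_, ?_⟩
    · rw [ip_sub_right, ip_smul_right, hH.h_self, ← ha]; omega
    · simp only [ip_sub_left, ip_sub_right, ip_smul_left, ip_smul_right, hH.h_self, ← ha, hva,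
        ← hs]
      have h4 : 3 * (x * (x * 3) - x * a - (x * a - s)) = 12 := by
        rw [hx] at hd ⊢
        linear_combination hd
      linarith
  · obtain ⟨x, hx⟩ : ∃ x, a = 2 - 3 * x := ⟨(2 - a) / 3, by omega⟩
    refine ⟨x • H.h + v, H.isHodge_add (H.isHodge_smul _ hH.h_hodge) hv, ?_, ?_⟩
    · rw [ip_add_right, ip_smul_right, hH.h_self, ← ha]; omega
    · simp only [ip_add_left, ip_add_right, ip_smul_left, ip_smul_right, hH.h_self, ← ha, hva,
        ← hs]
      have h4 : 3 * (x * (x * 3) + x * a + (x * a + s)) = 12 := by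
        rw [hx] at hd ⊢
        linear_combination hd
      linarith

/-- the isotropic class for `C_18` -/
theorem exists_three (hH : H.IsCohomology) (h : InC H 18) :
    ∃ l, H.IsHodge l ∧ H.ip H.h l = 3 ∧ H.ip l l = 9 := by
  obtain ⟨v, hv, -, hd⟩ := h
  obtain ⟨a, ha⟩ : ∃ a, a = H.ip H.h v := ⟨_, rfl⟩
  obtain ⟨s, hs⟩ : ∃ s, s = H.ip v v := ⟨_, rfl⟩
  have hva : H.ip v H.h = a := (hH.comm _ _).trans ha.symm
  rw [disc, ← ha, ← hs] at hd
  have h3 : (3 : ℤ) ∣ a := by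
    have h1 : (3 : ℤ) ∣ a ^ 2 := ⟨s - 6, by linear_combination -hd⟩
    exact Int.prime_three.dvd_of_dvd_pow h1
  obtain ⟨x, hx⟩ := h3
  refine ⟨(1 - x) • H.h + v, H.isHodge_add (H.isHodge_smul _ hH.h_hodge) hv, ?_, ?_⟩
  · rw [ip_add_right, ip_smul_right, hH.h_self, ← ha, hx]; ring
  · simp only [ip_add_left, ip_add_right, ip_smul_left, ip_smul_right, hH.h_self, ← ha, hva,
      ← hs]
    have h4 : 3 * ((1 - x) * ((1 - x) * 3) + (1 - x) * a + ((1 - x) * a + s)) = 27 := by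
      rw [hx] at hd ⊢
      linear_combination hd
    linarith

end Pool.Agent.Q76.FH
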