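import Pool.Agent.Q76.FH.Eq

/-!
# The criteria for associated K3 surfaces on `C_8`, `C_18` and `C_{2 s^2}`
-/

set_option autoImplicit false

namespace Pool.Agent.Q76.FH

open Pool.Agent.Y95.Q Pool.Agent.Y95.Q.H4

variable {X : CubicFourfold} {H : H4 X}

/-- the isotropic class for `C_{2 s^2}`, up to the sign of `s` -/
theorem exists_isotropic (hH : H.IsCohomology) {v : Fin 23 → ℤ} {s : ℤ} (hd : H.disc v = 2 * s ^ 2) :
    ∃ (ε x : ℤ), ε * ε = 1 ∧ 3 * x = ε * s - H.ip H.h v ∧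
      H.ip (x • H.h + v) (x • H.h + v) = s ^ 2 := by
  obtain ⟨a, ha⟩ : ∃ a, a = H.ip H.h v := ⟨_, rfl⟩
  obtain ⟨q, hq⟩ : ∃ q, q = H.ip v v := ⟨_, rfl⟩
  have hva : H.ip v H.h = a := (hH.comm _ _).trans ha.symm
  rw [disc, ← ha, ← hq] at hd
  have h3 : ∃ ε x : ℤ, ε * ε = 1 ∧ 3 * x = ε * s - a := by
    have h1 : (3 : ℤ) ∣ (s - a) * (s + a) := ⟨s ^ 2 - q, by linear_combination hd⟩
    rcases Int.prime_three.dvd_or_dvd h1 with ⟨x, hx⟩ | ⟨x, hx⟩
    · exact ⟨1, x, by norm_num, by rw [← hx]; ring⟩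
    · exact ⟨-1, -x, by norm_num, by linear_combination hx⟩
  obtain ⟨ε, x, hε, hx⟩ := h3
  refine ⟨ε, x, hε, by rw [← ha]; exact hx, ?_⟩
  simp only [ip_add_left, ip_add_right, ip_smul_left, ip_smul_right, hH.h_self, ← ha, hva, ← hq]
  have h4 : 3 * (x * (x * 3) + x * a + (x * a + q)) = 3 * s ^ 2 := by
    linear_combination hd + (3 * x + a + ε * s) * hx + s ^ 2 * hε
  linarith

/-- **The coprime case in `C_{2 s^2}`.** -/
theorem fanoHilb_of_two_sq (hH : H.IsCohomology) {v T : Fin 23 → ℤ} (hv : H.IsHodge v)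
    (hT : H.IsHodge T) {s : ℤ} (hd : H.disc v = 2 * s ^ 2)
    (hc : IsCoprime s (3 * H.ip v T - H.ip H.h v * H.ip H.h T)) : FanoHilb H := by
  obtain ⟨ε, x, hε, hx, hl⟩ := exists_isotropic hH hd
  have h1 : H.ip H.h (x • H.h + v) = ε * s := by
    rw [ip_add_right, ip_smul_right, hH.h_self]
    linear_combination hx
  refine fanoHilb_of_isotropic hH (l := x • H.h + v) (T := T)
    (H.isHodge_add (H.isHodge_smul _ hH.h_hodge) hv) hT ?_ ?_
  · rw [hl, h1]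
    linear_combination (-s ^ 2) * hε
  · rw [h1, ip_add_left, ip_smul_left]
    obtain ⟨p, q, hpq⟩ := hc
    refine ⟨ε * (p - q * ε * H.ip H.h T), 3 * q, ?_⟩
    linear_combination hpq + (p * s - q * ε * s * H.ip H.h T) * hε + q * H.ip H.h T * hx

/-- the criterion on `C_8` -/
theorem crit8 (hH : H.IsCohomology) (h : InC H 8) :
    H.HasK3 ↔ ∃ v, H.IsHodge v ∧ ¬ 4 ∣ H.disc v := by
  constructor
  · rintro ⟨v, hv, -, hd⟩
    exact ⟨v, hv, hd.2.1⟩
  · rintro ⟨v, hv, h4⟩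
    obtain ⟨l, hl, h1, h2⟩ := exists_two hH h
    exact hasK3_of_fanoHilb hH (two hH hl hv h1 h2 h4)

/-- the criterion on `C_18` -/
theorem crit18 (hH : H.IsCohomology) (h : InC H 18) :
    H.HasK3 ↔ ∃ v, H.IsHodge v ∧ H.disc v % 18 ≠ 0 ∧ H.disc v % 18 ≠ 12 := by
  constructor
  · rintro ⟨v, hv, -, hd⟩
    exact ⟨v, hv, admissible_mod hd (disc_even hH v)⟩
  · rintro ⟨v, hv, h0, h12⟩
    obtain ⟨l, hl, h1, h2⟩ := exists_three hH h
    exact hasK3_of_fanoHilb hH (three hH hl hv h1 h2 h0 h12)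

end Pool.Agent.Q76.FH
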