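import Pool.Agent.Y95.Q.K3

/-!
# Isotropic classes on the Fano variety of lines of a cubic fourfold
-/

set_option autoImplicit false

namespace Pool.Agent.Q76.FH

open Pool.Agent.Y95.Q Pool.Agent.Y95.Q.H4

/-- Addington's criterion: there is a Hodge class `v` such that `h` and `v` span a saturated group
of discriminant `d` with `a ^ 2 * d = 2 * n ^ 2 + 2 * n + 2` for some integers `a` and `n`. By a
theorem of Addington this means that the variety `F(X)` of the lines in `X` is birational to the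
Hilbert square `S^[2]` of a K3 surface `S`. -/
def FanoHilb {X : CubicFourfold} (H : H4 X) : Prop :=
  ∃ v, H.IsHodge v ∧ H.Saturated v ∧ ∃ a n : ℤ, a ^ 2 * H.disc v = 2 * n ^ 2 + 2 * n + 2

variable {X : CubicFourfold} {H : H4 X}

theorem fanoHilb_of_disc (hH : H.IsCohomology) {u : Fin 23 → ℤ} (hu : H.IsHodge u) {n : ℤ}
    (hd : H.disc u = 2 * n ^ 2 + 2 * n + 2) : FanoHilb H := by
  have hpos : 0 < H.disc u := by
    rw [hd]
    nlinarith [sq_nonneg (2 * n + 1)]
  obtain ⟨w, m, l, hm, hsat, hw⟩ := hH.exists_saturated _ hpos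
  have hwH : H.IsHodge w := by
    refine H.isHodge_of_smul hm.ne' ?_
    have h1 : m • w = u - l • H.h := by
      rw [hw]
      abel
    rw [h1]
    exact H.isHodge_sub hu (H.isHodge_smul _ hH.h_hodge)
  refine ⟨w, hwH, hsat, m, n, ?_⟩
  rw [← hd, hw, hH.disc_comb]

/-- the arithmetic: an odd `k` and `z` with `m k + b z = 1` -/
theorem exists_odd {m b : ℤ} (h : IsCoprime m b) : ∃ k z : ℤ, m * k + b * z = 1 ∧ Odd k := by
  obtain ⟨k, z, hkz⟩ := h
  rcases Int.even_or_odd k with hk | hk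
  · have hb : Odd b := by
      by_contra hb
      rw [Int.not_odd_iff_even] at hb
      have : Even (k * m + z * b) := (hk.mul_right m).add (hb.mul_left z)
      rw [hkz] at this
      exact absurd this (by decide)
    exact ⟨k + b, z - m, by linear_combination hkz, hk.add_odd hb⟩
  · exact ⟨k, z, by linear_combination hkz, hk⟩

/-- **A class `ℓ` with `ℓ² = (h.ℓ)²` and a class `T` with `ℓ.T` prime to `h.ℓ` imply Addington's
criterion.** -/
theorem fanoHilb_of_isotropic (hH : H.IsCohomology) {l T : Fin 23 → ℤ} (hl : H.IsHodge l)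
    (hT : H.IsHodge T) (hll : H.ip l l = H.ip H.h l ^ 2)
    (hcop : IsCoprime (H.ip H.h l) (H.ip l T)) : FanoHilb H := by
  set m := H.ip H.h l with hm
  set a := H.ip H.h T with ha
  set b := m * a - H.ip l T with hb
  have hcop' : IsCoprime m b := by
    obtain ⟨x, y, hxy⟩ := hcop
    refine ⟨x + y * a, -y, ?_⟩
    rw [hb]
    linear_combination hxy
  obtain ⟨k, z, hkz, i, hi⟩ := exists_odd hcop'
  obtain ⟨c, hc⟩ : Even (a ^ 2 - H.ip T T) := by
    have h1 := hH.char T
    rw [hH.comm T H.h, ← ha] at h1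
    have h2 : a ^ 2 - H.ip T T = a * (a - 1) - (H.ip T T - a) := by ring
    rw [h2]
    exact (Int.even_mul_pred_self a).sub h1
  set j := 3 * i ^ 2 + 3 * i + 1 with hj
  set y := -(j + k * z * a + z ^ 2 * c) with hy
  have hu : H.IsHodge (y • l + z • T) := H.isHodge_add (H.isHodge_smul _ hl) (H.isHodge_smul _ hT)
  refine fanoHilb_of_disc hH hu (n := 3 * i + y * m + z * a + 1) ?_
  have h1 : H.disc (y • l + z • T) = 2 * m ^ 2 * y ^ 2 + 2 * y * z * (2 * m * a - 3 * b) +
      z ^ 2 * (2 * a ^ 2 - 6 * c) := by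
    have hTT : H.ip T T = a ^ 2 - (c + c) := by linear_combination -hc
    have hlT : H.ip l T = m * a - b := by rw [hb]; ring
    simp only [disc, ip_add_left, ip_add_right, ip_smul_left, ip_smul_right, hll, hTT,
      hH.comm T l, hlT, ← hm, ← ha]
    ring
  rw [h1]
  have h2 : m * k + b * z = 1 := hkz
  have h3 : y * (m * k + b * z) = -(j + k * z * a + z ^ 2 * c) := by rw [h2, mul_one]
  rw [hi] at h3
  rw [hj] at h3
  linear_combination (-6) * h3

/-- Addington's criterion implies Hassett's criterion -/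
theorem hasK3_of_fanoHilb (hH : H.IsCohomology) (h : FanoHilb H) : H.HasK3 := by
  obtain ⟨v, hv, hs, a, n, hn⟩ := h
  have h0 : 0 < H.disc v := by
    by_contra hcon
    push Not at hcon
    have h1 : a ^ 2 * H.disc v ≤ 0 := mul_nonpos_of_nonneg_of_nonpos (by positivity) hcon
    nlinarith [sq_nonneg (2 * n + 1)]
  exact ⟨v, hv, hs, hH.six_lt hv h0, four_not_dvd hn, nine_not_dvd hn,
    fun p hp hp2 hd => prime_mod hn hp hp2 hd⟩

/-- Hassett's cubic fourfolds which contain a plane -/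
theorem fanoHilb_of_plane (hH : H.IsCohomology) {P T : Fin 23 → ℤ} (hP : H.IsPl P)
    (hT : H.IsHodge T) (hodd : Odd (H.ip T (H.h - P))) : FanoHilb H := by
  have h1 : H.ip H.h P = 1 := (hH.comm _ _).trans hP.2.1
  have h2 : H.ip P P = 3 := hP.2.2
  have h3 : H.ip H.h (H.h - P) = 2 := by rw [ip_sub_right, hH.h_self, h1]; norm_num
  refine fanoHilb_of_isotropic hH (l := H.h - P) (T := T) (H.isHodge_sub hH.h_hodge hP.1) hT ?_ ?_
  · rw [h3]
    simp only [ip_sub_left, ip_sub_right, hH.h_self, h1, h2, hP.2.1]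
    norm_num
  · rw [h3, hH.comm]
    obtain ⟨t, ht⟩ := hodd
    exact ⟨-t, 1, by rw [ht]; ring⟩

/-- the classes of sextic del Pezzo surfaces -/
theorem fanoHilb_of_sextic (hH : H.IsCohomology) {S T : Fin 23 → ℤ} (hS : H.IsHodge S)
    (hSh : H.ip S H.h = 6) (hSS : H.ip S S = 18)
    (hT : H.IsHodge T) (h3 : ¬ (3 : ℤ) ∣ H.ip S T) : FanoHilb H := by
  have h1 : H.ip H.h S = 6 := (hH.comm _ _).trans hSh
  have h2 : H.ip H.h ((3 : ℤ) • H.h - S) = 3 := by
    rw [ip_sub_right, ip_smul_right, hH.h_self, h1]; norm_num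
  refine fanoHilb_of_isotropic hH (l := (3 : ℤ) • H.h - S) (T := T)
    (H.isHodge_sub (H.isHodge_smul _ hH.h_hodge) hS) hT ?_ ?_
  · rw [h2]
    simp only [ip_sub_left, ip_sub_right, ip_smul_left, ip_smul_right, hH.h_self, h1, hSh, hSS]
    norm_num
  · rw [h2, ip_sub_left, ip_smul_left]
    have hc : IsCoprime (3 : ℤ) (H.ip S T) :=
      (Int.prime_three.coprime_iff_not_dvd).2 h3
    obtain ⟨x, y, hxy⟩ := hc
    exact ⟨x + y * H.ip H.h T, -y, by linear_combination hxy⟩

/-- from an odd class to the conclusion -/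
theorem of_not_allEven (hH : H.IsCohomology) (h : ¬ H.AllEven) :
    X.IsRational ∧ FanoHilb H := by
  unfold AllEven at h
  push Not at h
  obtain ⟨P, hP, T, hT, hodd⟩ := h
  rw [Int.not_even_iff_odd] at hodd
  obtain ⟨P', rfl⟩ := (hH.cl_range P).2 hP
  exact ⟨hH.hassett P' T hT hodd, fanoHilb_of_plane hH hP hT hodd⟩

/-- cubic fourfolds with many planes have a plane and an odd class -/
theorem not_allEven (hH : H.IsCohomology)
    (h : (12 ≤ Nat.card X.Plane ∧ Nat.card X.Plane ∉ ({13, 15, 17, 19, 21, 27} : Finset ℕ)) ∨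
      (∃ P : X.Plane, 21 ≤ Nat.card {Q : X.Plane // H.ip (H.cl P) (H.cl Q) = -1}) ∨
      (∃ P : Fin 12 → X.Plane, ∀ i j, i ≠ j → H.ip (H.cl (P i)) (H.cl (P j)) = 1) ∨
      2 ^ (23 - H.rank) ≤ Nat.card X.Plane ∨
      (Nat.card X.Plane = 27 ∧
        ∃ P : X.Plane, Nat.card {Q : X.Plane // H.ip (H.cl P) (H.cl Q) = -1} ≠ 10)) :
    ¬ H.AllEven := by
  intro hE
  rcases h with ⟨h12, hne⟩ | ⟨P, h21⟩ | ⟨P, hP⟩ | h | ⟨h27, P, h10⟩
  · obtain ⟨S, hS, hcard⟩ := hH.exists_finset (by omega)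
    have h1 := hH.card_planes hE hS
    rw [hcard] at h1
    simp only [Finset.mem_insert, Finset.mem_singleton, not_or] at hne
    omega
  · obtain ⟨S, hS, hcard⟩ := hH.exists_finset_adj P (Nat.finite_of_card_ne_zero (by omega))
    have h1 := hH.card_adj hE ((hH.cl_range _).1 ⟨P, rfl⟩) hS
    rw [hcard] at h1
    omega
  · exact hH.twelve hE (δ := 1) (Or.inl rfl) (P0 := H.cl (P 0)) (P := fun j => H.cl (P j.succ))
      ((hH.cl_range _).1 ⟨_, rfl⟩) (fun j => (hH.cl_range _).1 ⟨_, rfl⟩)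
      (fun j => hP _ _ (Fin.succ_ne_zero j).symm)
      (fun i j hij => hP _ _ fun h' => hij (Fin.succ_injective _ h'))
  · have h0 : 0 < 2 ^ (23 - H.rank) := by positivity
    obtain ⟨S, hS, hcard⟩ := hH.exists_finset (by omega)
    have h1 := hH.card_rank hE (fun v hv => (hS v).1 hv)
    rw [hcard] at h1
    omega
  · have hfin : Finite X.Plane := Nat.finite_of_card_ne_zero (by omega)
    obtain ⟨S, hS, hcard⟩ := hH.exists_finset (by omega)
    obtain ⟨S', hS', hcard'⟩ := hH.exists_finset_adj P inferInstance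
    have h1 := hH.card_27 hE hS (hcard.trans h27) ((hH.cl_range _).1 ⟨P, rfl⟩) hS'
    exact h10 (hcard'.symm.trans h1)

end Pool.Agent.Q76.FH
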